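import Pool.Agent.W452.FS.Final

/-!
# MP_3359e9_al, Q1: the alternating chain sum identity for `k(F, α)`

For every saturated fusion system `F` on a nontrivial finite `p`-group `S` and every family
`α = (α_Q)`, `α_Q ∈ H²(Out_F(Q), kˣ)`, which is invariant under the isomorphisms of `F` between
centric subgroups (in particular for every `F`-compatible family),

  `k(F, α) = ∑_σ (-1)^{|σ|} k(N_F(σ), α(σ))`,

where `σ` runs over representatives of the `F`-isomorphism classes of fully `F`-normalized normal
chains of nontrivial subgroups of `S`.

The group `S` is a `p`-subgroup of a finite group `G`; the case `S = G` is allowed, so there is no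
restriction on `S`.

Idea of the proof. Expanding `k` and `w`, the identity (with the empty chain moved to the right hand
side) says that a signed sum over the `F`-conjugacy classes of triples `(σ, x, P)` vanishes, where
`σ` is an empty or normal chain, `x ∈ Z(P)`, `P ≤ N_S(σ)`, and `C_{N_S(σ')}(P') ≤ P'` for all
`F`-conjugates `(σ', P')`; the term of `(σ, x, P)` only depends on the group `M P` (`M` the top of
`σ`), on `P`, and on the group of automorphisms of `M P` in `F` stabilizing `P` and the members of
`σ` and fixing `x`. Let `L` be the largest member of `σ` not containing `P` (`L = 1` if there is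
none), and let `N = M P` if `P ≰ M` and `N = L ⟨P^M⟩` if `P ≤ M`. Inserting or removing `N` is an
involution on the triples which commutes with morphisms of `F`, does not change the term and
changes the sign.

The definitions are in `Pool.Agent.W452.FS.D1` (cohomology classes, twisted group algebras, `z`),
`Pool.Agent.W452.FS.D2` (fusion systems), `Pool.Agent.W452.FS.D3` (automorphism groups,
saturation, the data of the local subsystems) and `Pool.Agent.W452.FS.D4` (the local subsystems
`N_F(σ)` and `C_F(x)`, families, `w`, `k`, chains).
-/

set_option autoImplicit false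

namespace Pool.Agent.Results.MP_3359e9_al.AlternatingChainSum

open Pool.Agent.W452.FS

universe u v

/-- **The alternating chain sum identity for weights of fusion systems.** -/
theorem result (p : ℕ) [Fact p.Prime] (k : Type v) [Field k] {G : Type u} [Group G] [Finite G]
    (F : FusionSystem G) (hp : IsPGroup p F.S) (hS : F.S ≠ ⊥) (hF : F.IsSaturated p)
    (α : F.Family k) (hα : α.IsoInvariant)
    -- `𝒞` is a set of representatives of the isomorphism classes of fully normalized normal chains
    (𝒞 : Finset (Set (Subgroup G)))
    (h𝒞 : ∀ σ ∈ 𝒞, F.IsNormalChain σ ∧ FullyNormalizedChain F σ)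
    (h𝒞' : ∀ σ, F.IsNormalChain σ → FullyNormalizedChain F σ →
      ∃! τ, τ ∈ 𝒞 ∧ F.ChainIso σ τ) :
    (F.k α : ℤ) =
      ∑ σ ∈ 𝒞, (-1) ^ (σ.ncard - 1) * ((F.localSub σ ∅).k (α.res σ ∅) : ℤ) :=
  FusionSystem.alternating_sum hF hp hS hα 𝒞 h𝒞 h𝒞'

end Pool.Agent.Results.MP_3359e9_al.AlternatingChainSum
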